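import Pool.Agent.W5h26.UF.Cup

/-!
# Counting systems of linking numbers
-/

set_option autoImplicit false
set_option maxHeartbeats 1000000

open Finset

namespace Pool.Agent.W5h26.UF

/-! ### General lemmas -/

open Classical in
/-- the number of the elements with the property `P` -/
noncomputable def cnt {α : Type} [Fintype α] (P : α → Prop) : ℕ := (univ.filter fun a => P a).card

open Classical in
theorem card_fib {α β : Type} [Fintype α] [Fintype β] (P : α → Prop) (Q : α → β → Prop) (k : ℝ)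
    (h : ∀ a, P a → k ≤ (cnt (Q a) : ℝ)) : (cnt P : ℝ) * k ≤ (cnt fun ab : α × β => P ab.1 ∧ Q ab.1 ab.2 : ℝ) := by
  unfold cnt at *
  have h1 : ((univ.filter fun ab : α × β => P ab.1 ∧ Q ab.1 ab.2).card : ℝ) =
      ∑ a : α, ((univ.filter fun b : β => P a ∧ Q a b).card : ℝ) := by
    rw [card_filter, Fintype.sum_prod_type]
    push_cast
    refine sum_congr rfl fun a _ => ?_
    rw [card_filter]
    push_cast
    rfl
  have h2 : ((univ.filter fun a => P a).card : ℝ) * k ≤ ∑ a : α, ((univ.filter fun b : β => P a ∧ Q a b).card : ℝ) := by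
    rw [card_eq_sum_ones, Nat.cast_sum, sum_mul, sum_filter]
    refine sum_le_sum fun a _ => ?_
    split_ifs with ha
    · rw [Nat.cast_one, one_mul]
      refine (h a ha).trans (le_of_eq ?_)
      congr 2
      ext b
      simp [ha]
    · positivity
  refine h2.trans (h1.symm.le.trans (le_of_eq ?_))
  congr!

open Classical in
theorem card_inj {α β : Type} [Fintype α] [Fintype β] (f : α → β) (hf : Function.Injective f) (P : α → Prop) (Q : β → Prop)
    (h : ∀ a, P a → Q (f a)) : (cnt P : ℝ) ≤ (cnt Q : ℝ) := by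
  refine Nat.cast_le.2 (card_le_card_of_injOn f ?_ hf.injOn)
  intro a ha
  rw [mem_coe, mem_filter] at ha ⊢
  exact ⟨mem_univ _, h a ha.2⟩

/-- the number of the pairs with the property `G` -/
noncomputable def PNum {V S : Type} [Fintype V] [Fintype S] (G : V → S → Prop) : ℕ :=
  ∑ w : V, cnt (G w)

open Classical in
theorem PNum_eq {V S : Type} [Fintype V] [Fintype S] (G : V → S → Prop) :
    PNum G = cnt fun ws : V × S => G ws.1 ws.2 := by
  unfold PNum cnt
  rw [card_filter, Fintype.sum_prod_type]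
  exact sum_congr rfl fun w _ => card_filter _ _

theorem PNum_ge {α V S : Type} [Fintype α] [Fintype V] [Fintype S] (G : V → S → Prop) (f : α → V × S)
    (hf : Function.Injective f) (P : α → Prop) (h : ∀ a, P a → G (f a).1 (f a).2) :
    (cnt P : ℝ) ≤ (PNum G : ℝ) := by
  rw [PNum_eq]
  exact card_inj f hf P _ h

open Classical in
theorem PNum_tail {F : Type} [Fintype F] {k : ℕ} (G : (Fin k → F) → (Fin k → F) → Prop) :
    (Fintype.card F : ℝ) ^ 2 * PNum G ≤ (PNum fun w s : Fin (k + 1) → F => G (fun i => w i.succ) (fun i => s i.succ) : ℝ) := by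
  have h := PNum_ge (fun w s : Fin (k + 1) → F => G (fun i => w i.succ) (fun i => s i.succ))
    (fun t : (F × F) × ((Fin k → F) × (Fin k → F)) =>
      ((Fin.cons t.1.1 t.2.1 : Fin (k + 1) → F), (Fin.cons t.1.2 t.2.2 : Fin (k + 1) → F))) (by
      rintro ⟨⟨a, b⟩, ⟨w, s⟩⟩ ⟨⟨a', b'⟩, ⟨w', s'⟩⟩ h
      simp only [Prod.mk.injEq, Fin.cons_inj] at h
      obtain ⟨⟨rfl, rfl⟩, rfl, rfl⟩ := h
      rfl) (fun t => G t.2.1 t.2.2) (by
      rintro ⟨⟨a, b⟩, ⟨w, s⟩⟩ h
      simpa using h)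
  refine le_trans (le_of_eq ?_) h
  rw [PNum_eq]
  unfold cnt
  have e : (univ.filter fun t : (F × F) × ((Fin k → F) × (Fin k → F)) => G t.2.1 t.2.2) =
      (univ : Finset (F × F)) ×ˢ (univ.filter fun ws : (Fin k → F) × (Fin k → F) => G ws.1 ws.2) := by
    ext t
    simp
  rw [e, card_product, card_univ, Fintype.card_prod]
  push_cast
  ring

/-! ### Linear forms and quadratic residues -/

section
open Classical
variable {F : Type} [Field F] [Fintype F]

theorem line {a b : F} (h : a ≠ 0 ∨ b ≠ 0) :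
    ((univ : Finset (F × F)).filter fun v => v ≠ 0 ∧ a * v.1 + b * v.2 = 0).card + 1 ≤ Fintype.card F := by
  have h0 : ((univ : Finset F).erase 0).card + 1 = Fintype.card F := by
    rw [card_erase_add_one (mem_univ _), card_univ]
  rw [← h0]
  refine Nat.add_le_add_right ?_ 1
  rcases h with h | h
  · refine card_le_card_of_injOn (fun v => v.2) ?_ ?_
    · rintro ⟨x, y⟩ hv
      obtain ⟨-, h1, h2⟩ := (@Finset.mem_filter _ _ _ _ _).1 (mem_coe.1 hv)
      rw [mem_coe, mem_erase]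
      refine ⟨fun hy => h1 ?_, mem_univ _⟩
      simp only at hy h2
      rw [hy, mul_zero, add_zero] at h2
      rw [Prod.mk_eq_zero]
      exact ⟨(mul_eq_zero.1 h2).resolve_left h, hy⟩
    · rintro ⟨x, y⟩ hv ⟨x', y'⟩ hv' hyy
      obtain ⟨-, -, h2⟩ := (@Finset.mem_filter _ _ _ _ _).1 (mem_coe.1 hv)
      obtain ⟨-, -, h2'⟩ := (@Finset.mem_filter _ _ _ _ _).1 (mem_coe.1 hv')
      simp only at hyy h2 h2'
      subst hyy
      refine Prod.ext (mul_left_cancel₀ h ?_) rfl
      linear_combination h2 - h2'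
  · refine card_le_card_of_injOn (fun v => v.1) ?_ ?_
    · rintro ⟨x, y⟩ hv
      obtain ⟨-, h1, h2⟩ := (@Finset.mem_filter _ _ _ _ _).1 (mem_coe.1 hv)
      rw [mem_coe, mem_erase]
      refine ⟨fun hy => h1 ?_, mem_univ _⟩
      simp only at hy h2
      rw [hy, mul_zero, zero_add] at h2
      rw [Prod.mk_eq_zero]
      exact ⟨hy, (mul_eq_zero.1 h2).resolve_left h⟩
    · rintro ⟨x, y⟩ hv ⟨x', y'⟩ hv' hyy
      obtain ⟨-, -, h2⟩ := (@Finset.mem_filter _ _ _ _ _).1 (mem_coe.1 hv)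
      obtain ⟨-, -, h2'⟩ := (@Finset.mem_filter _ _ _ _ _).1 (mem_coe.1 hv')
      simp only at hyy h2 h2'
      subst hyy
      refine Prod.ext rfl (mul_left_cancel₀ h ?_)
      linear_combination h2 - h2'

theorem pencil {n : ℕ} (a b : Fin n → F) (h : ∀ i, a i ≠ 0 ∨ b i ≠ 0) :
    ((Fintype.card F : ℝ) - 1) * ((Fintype.card F : ℝ) + 1 - n) ≤
      (cnt fun v : F × F => v ≠ 0 ∧ ∀ i, a i * v.1 + b i * v.2 ≠ 0 : ℝ) := by
  unfold cnt
  set q := (Fintype.card F : ℝ) with hq
  have h1 : (univ : Finset (F × F)).erase 0 ⊆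
      ((univ : Finset (F × F)).filter fun v => v ≠ 0 ∧ ∀ i, a i * v.1 + b i * v.2 ≠ 0) ∪
        (univ : Finset (Fin n)).biUnion fun i => (univ : Finset (F × F)).filter fun v => v ≠ 0 ∧ a i * v.1 + b i * v.2 = 0 := by
    intro v hv
    have hv0 := (mem_erase.1 hv).1
    by_cases hall : ∀ i, a i * v.1 + b i * v.2 ≠ 0
    · exact mem_union_left _ (mem_filter.2 ⟨mem_univ _, hv0, hall⟩)
    · push Not at hall
      obtain ⟨i, hi⟩ := hall
      exact mem_union_right _ (mem_biUnion.2 ⟨i, mem_univ _, mem_filter.2 ⟨mem_univ _, hv0, hi⟩⟩)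
  have h2 : ((univ : Finset (F × F)).erase 0).card + 1 = Fintype.card F * Fintype.card F := by
    rw [card_erase_add_one (mem_univ _), card_univ, Fintype.card_prod]
  have h3 := (card_le_card h1).trans (card_union_le _ _)
  have h4 : ((univ : Finset (Fin n)).biUnion fun i => (univ : Finset (F × F)).filter fun v =>
      v ≠ 0 ∧ a i * v.1 + b i * v.2 = 0).card ≤ n * (Fintype.card F - 1) := by
    refine (card_biUnion_le).trans ?_
    refine (sum_le_card_nsmul _ _ (Fintype.card F - 1) fun i _ => ?_).trans (le_of_eq ?_)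
    · have := line (h i)
      omega
    · rw [card_univ, Fintype.card_fin, smul_eq_mul]
  have hc : 1 ≤ Fintype.card F := Fintype.card_pos
  have h5 : (((univ : Finset (F × F)).erase 0).card : ℝ) = q * q - 1 := by
    have : ((((univ : Finset (F × F)).erase 0).card + 1 : ℕ) : ℝ) = ((Fintype.card F * Fintype.card F : ℕ) : ℝ) := by rw [h2]
    push_cast at this
    rw [← hq] at this
    linarith
  have h6 : (((univ : Finset (F × F)).erase 0).card : ℝ) ≤
      (((univ : Finset (F × F)).filter fun v => v ≠ 0 ∧ ∀ i, a i * v.1 + b i * v.2 ≠ 0).card : ℝ) + n * (q - 1) := by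
    have h7 : (((univ : Finset (F × F)).erase 0).card : ℝ) ≤
      ((((univ : Finset (F × F)).filter fun v => v ≠ 0 ∧ ∀ i, a i * v.1 + b i * v.2 ≠ 0).card + n * (Fintype.card F - 1) : ℕ) : ℝ) :=
      Nat.cast_le.2 (h3.trans (Nat.add_le_add_left h4 _))
    rw [Nat.cast_add, Nat.cast_mul, Nat.cast_sub hc, Nat.cast_one, ← hq] at h7
    exact h7
  rw [h5] at h6
  have h8 : (q - 1) * (q + 1 - n) ≤ (((univ : Finset (F × F)).filter fun v => v ≠ 0 ∧ ∀ i, a i * v.1 + b i * v.2 ≠ 0).card : ℝ) := by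
    nlinarith
  refine h8.trans (le_of_eq ?_)
  congr!

theorem roots_le {K : F} : ((univ : Finset F).filter fun u => u ^ 2 + K = 0).card ≤ 2 := by
  by_cases h : ∃ u : F, u ^ 2 + K = 0
  · obtain ⟨u, hu⟩ := h
    have : ((univ : Finset F).filter fun u => u ^ 2 + K = 0) ⊆ {u, -u} := by
      intro v hv
      have hv' := (mem_filter.1 hv).2
      rw [mem_insert, mem_singleton]
      have h1 : (v - u) * (v + u) = 0 := by linear_combination hv' - hu
      rcases mul_eq_zero.1 h1 with h2 | h2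
      · exact Or.inl (by linear_combination h2)
      · exact Or.inr (by linear_combination h2)
    exact (card_le_card this).trans card_le_two
  · push Not at h
    rw [filter_false_of_mem fun u _ => h u]
    simp

/-- `u ^ 2 + K` is not a square for half of all `u` -/
theorem nonsq (h2 : (2 : F) ≠ 0) {K : F} (hK : K ≠ 0) :
    ((Fintype.card F : ℝ) - 1) / 2 ≤ (cnt fun u : F => ¬ IsSquare (u ^ 2 + K) : ℝ) := by
  unfold cnt
  set Sq := (univ : Finset F).filter fun u => IsSquare (u ^ 2 + K) with hSq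
  have h0 : ((univ : Finset F).erase 0).card + 1 = Fintype.card F := by
    rw [card_erase_add_one (mem_univ _), card_univ]
  have h1 : ((univ : Finset F).erase 0).card =
      ∑ u : F, (((univ : Finset F).erase 0).filter fun s => (K / s - s) / 2 = u).card :=
    card_eq_sum_card_fiberwise fun _ _ => mem_coe.2 (mem_univ _)
  have h3 : ∑ u ∈ Sq, (2 - if u ^ 2 + K = 0 then 1 else 0) ≤
      ∑ u ∈ Sq, (((univ : Finset F).erase 0).filter fun s => (K / s - s) / 2 = u).card := by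
    refine sum_le_sum fun u hu => ?_
    obtain ⟨t, ht⟩ := (mem_filter.1 hu).2
    have m1 : ∀ t : F, u ^ 2 + K = t * t → t - u ∈ ((univ : Finset F).erase 0).filter fun s => (K / s - s) / 2 = u := by
      intro t ht
      have hne : t - u ≠ 0 := by
        intro h
        apply hK
        have : t = u := by linear_combination h
        rw [this] at ht
        linear_combination ht
      rw [mem_filter, mem_erase]
      refine ⟨⟨hne, mem_univ _⟩, ?_⟩
      field_simp
      linear_combination ht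
    split_ifs with hz
    · have := card_pos.2 ⟨_, m1 t ht⟩
      omega
    · have ht0 : t ≠ 0 := by
        rintro rfl
        apply hz
        rw [ht, zero_mul]
      have h4 : ({t - u, -t - u} : Finset F) ⊆ ((univ : Finset F).erase 0).filter fun s => (K / s - s) / 2 = u := by
        intro s hs
        rw [mem_insert, mem_singleton] at hs
        rcases hs with rfl | rfl
        · exact m1 t ht
        · exact m1 (-t) (by rw [ht]; ring)
      have h5 : ({t - u, -t - u} : Finset F).card = 2 := by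
        rw [card_pair]
        intro h
        apply ht0
        have : 2 * t = 0 := by linear_combination h
        exact (mul_eq_zero.1 this).resolve_left h2
      have := card_le_card h4
      omega
  have h4 : ∑ u ∈ Sq, (((univ : Finset F).erase 0).filter fun s => (K / s - s) / 2 = u).card ≤
      ∑ u : F, (((univ : Finset F).erase 0).filter fun s => (K / s - s) / 2 = u).card :=
    sum_le_sum_of_subset (subset_univ _)
  have h5 : 2 * Sq.card ≤ ∑ u ∈ Sq, (2 - if u ^ 2 + K = 0 then 1 else 0) + 2 := by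
    have h6 : 2 * Sq.card = ∑ u ∈ Sq, (2 - if u ^ 2 + K = 0 then 1 else 0) + ∑ u ∈ Sq, if u ^ 2 + K = 0 then 1 else 0 := by
      rw [← sum_add_distrib, mul_comm, ← smul_eq_mul, ← sum_const]
      refine sum_congr rfl fun u _ => ?_
      split_ifs <;> rfl
    rw [h6]
    refine Nat.add_le_add_left ?_ _
    rw [← card_filter]
    exact (card_le_card (filter_subset_filter _ (subset_univ _))).trans roots_le
  have h6 : Sq.card + ((univ : Finset F).filter fun u => ¬ IsSquare (u ^ 2 + K)).card = Fintype.card F := by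
    rw [hSq, card_filter_add_card_filter_not, card_univ]
  have h7 : Fintype.card F ≤ 2 * ((univ : Finset F).filter fun u => ¬ IsSquare (u ^ 2 + K)).card + 1 := by omega
  have h8 : (Fintype.card F : ℝ) ≤ 2 * (((univ : Finset F).filter fun u => ¬ IsSquare (u ^ 2 + K)).card : ℝ) + 1 := by
    exact_mod_cast h7
  have h9 : ((Fintype.card F : ℝ) - 1) / 2 ≤ (((univ : Finset F).filter fun u => ¬ IsSquare (u ^ 2 + K)).card : ℝ) := by
    linarith
  refine h9.trans (le_of_eq ?_)
  congr!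

/-! ### One and two old primes -/

theorem num1 : ((Fintype.card F : ℝ) - 1) * (Fintype.card F : ℝ) ≤ (PNum fun w _ : Fin 1 → F => w 0 ≠ 0 : ℝ) := by
  have h := pencil (F := F) (n := 1) (fun _ => 1) (fun _ => 0) (fun _ => Or.inl one_ne_zero)
  have h2 := PNum_ge (fun w _ : Fin 1 → F => w 0 ≠ 0) (fun t : F × F => ((fun _ => t.1), (fun _ => t.2))) (by
    rintro ⟨a, b⟩ ⟨a', b'⟩ h
    rw [Prod.mk.injEq] at h
    exact Prod.ext (congrFun h.1 0) (congrFun h.2 0)) (fun v => v ≠ 0 ∧ ∀ _ : Fin 1, 1 * v.1 + 0 * v.2 ≠ 0) (by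
    rintro ⟨a, b⟩ ⟨-, h⟩
    have := h 0
    simpa using this)
  refine le_trans ?_ (h.trans h2)
  push_cast
  linarith

theorem num2 {l01 l10 : F} (h01 : l01 ≠ 0) : (((Fintype.card F : ℝ) - 1) * (Fintype.card F : ℝ)) ^ 2 ≤
    (PNum fun w s : Fin 2 → F => l01 * w 1 * s 0 ≠ l10 * s 1 * w 0 : ℝ) := by
  set q := (Fintype.card F : ℝ) with hq
  have hq1 : 1 ≤ q := by
    rw [hq]
    exact_mod_cast (Fintype.card_pos : 0 < Fintype.card F)
  have h := card_fib (fun w : F × F => w ≠ 0 ∧ ∀ _ : Fin 1, 0 * w.1 + 1 * w.2 ≠ 0)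
    (fun w (s : F × F) => s ≠ 0 ∧ ∀ _ : Fin 1, (l01 * w.2) * s.1 + (-(l10 * w.1)) * s.2 ≠ 0) ((q - 1) * (q + 1 - (1 : ℕ)))
    (by
      intro w hw
      refine pencil (F := F) (n := 1) (fun _ => l01 * w.2) (fun _ => -(l10 * w.1)) (fun _ => Or.inl (mul_ne_zero h01 ?_))
      have := hw.2 0
      rwa [zero_mul, zero_add, one_mul] at this)
  have h' := pencil (F := F) (n := 1) (fun _ => 0) (fun _ => 1) (fun _ => Or.inr one_ne_zero)
  have h2 := PNum_ge (fun w s : Fin 2 → F => l01 * w 1 * s 0 ≠ l10 * s 1 * w 0)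
    (fun t : (F × F) × (F × F) => (![t.1.1, t.1.2], ![t.2.1, t.2.2])) (by
    rintro ⟨⟨a, b⟩, c, d⟩ ⟨⟨a', b'⟩, c', d'⟩ h
    rw [Prod.mk.injEq] at h
    have e0 := congrFun h.1 0
    have e1 := congrFun h.1 1
    have e2 := congrFun h.2 0
    have e3 := congrFun h.2 1
    simp at e0 e1 e2 e3
    subst e0 e1 e2 e3
    rfl) (fun ab => (ab.1 ≠ 0 ∧ ∀ _ : Fin 1, 0 * ab.1.1 + 1 * ab.1.2 ≠ 0) ∧ ab.2 ≠ 0 ∧
      ∀ _ : Fin 1, (l01 * ab.1.2) * ab.2.1 + (-(l10 * ab.1.1)) * ab.2.2 ≠ 0) (by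
    rintro ⟨⟨a, b⟩, c, d⟩ ⟨-, -, h⟩ h3
    refine h 0 ?_
    simp at h3 ⊢
    linear_combination h3)
  refine le_trans ?_ (h.trans h2)
  rw [Nat.cast_one] at h' ⊢
  refine le_trans (le_of_eq ?_) (mul_le_mul_of_nonneg_right h' (mul_nonneg (by linarith) (by linarith)))
  ring

/-! ### Three old primes -/

/-- the conic: the leading coefficient is a square -/
theorem conic (h2 : (2 : F) ≠ 0) {M e k : F} (hM : M ≠ 0) (hk : k ≠ 0) (hek : e * M ≠ k) :
    ((Fintype.card F : ℝ) - 1) / 2 ≤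
      (cnt fun w : F => ¬ IsSquare ((M * w + e) ^ 2 - 4 * k * w) : ℝ) := by
  have hK : 4 * k * (e * M - k) / M ^ 2 ≠ 0 := by
    refine div_ne_zero (mul_ne_zero (mul_ne_zero ?_ hk) (sub_ne_zero.2 hek)) (pow_ne_zero _ hM)
    have : (4 : F) = 2 * 2 := by norm_num
    rw [this]
    exact mul_ne_zero h2 h2
  refine (nonsq h2 hK).trans (card_inj (fun u : F => (u - e + 2 * k / M) / M) ?_ _ _ ?_)
  · intro u v huv
    simp only at huv
    rw [div_left_inj' hM] at huv
    linear_combination huv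
  · intro u hu hs
    apply hu
    convert hs using 1
    field_simp
    ring

/-- the inner count: the last two linking numbers -/
theorem inner (h2 : (2 : F) ≠ 0) (hq3 : 3 ≤ Fintype.card F) (o : Six F) {A E C D : F} (hΔ : Dl4 o A E C D ≠ 0)
    (hX : Xx o A E C D ≠ 0) (hY : Yy o ≠ 0) (hκ : Ka o C D ≠ 0) (hκ' : Kb o A E ≠ 0) (hM : Mm o A E C D ≠ 0) :
    ((Fintype.card F : ℝ) - 2) * (((Fintype.card F : ℝ) - 1) / 2) ≤
      (cnt fun v : F × F => ¬ IsSquare (Dis o A v.1 E C v.2 D) : ℝ) := by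
  set q := (Fintype.card F : ℝ) with hq
  have hq1 : 3 ≤ q := by
    rw [hq]
    exact_mod_cast hq3
  obtain ⟨Δ, hΔ'⟩ : ∃ Δ, Δ = Dl4 o A E C D := ⟨_, rfl⟩
  obtain ⟨M, hM'⟩ : ∃ M, M = Mm o A E C D := ⟨_, rfl⟩
  obtain ⟨N, hN'⟩ : ∃ N, N = Nn o A E C D := ⟨_, rfl⟩
  obtain ⟨k, hk'⟩ : ∃ k, k = Ka o C D * Kb o A E * Xx o A E C D * Yy o := ⟨_, rfl⟩
  rw [← hΔ'] at hΔ
  rw [← hM'] at hM
  have hk : k ≠ 0 := by
    rw [hk']
    exact mul_ne_zero (mul_ne_zero (mul_ne_zero hκ hκ') hX) hY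
  have h3 := card_fib (fun z : F => z ≠ 0 ∧ (N * z + Δ ^ 2) * M ≠ k * z)
    (fun z (w : F) => ¬ IsSquare ((M * w + (N * z + Δ ^ 2)) ^ 2 - 4 * (k * z) * w)) ((q - 1) / 2) (fun z hz =>
      conic h2 hM (mul_ne_zero hk hz.1) hz.2)
  have h4 : q - 2 ≤ (cnt fun z : F => z ≠ 0 ∧ (N * z + Δ ^ 2) * M ≠ k * z : ℝ) := by
    unfold cnt
    have h5 : (univ : Finset F) ⊆ ((univ : Finset F).filter fun z : F => z ≠ 0 ∧ (N * z + Δ ^ 2) * M ≠ k * z) ∪
        {0, M * Δ ^ 2 / (k - N * M)} := by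
      intro z _
      rw [mem_union, mem_filter, mem_insert, mem_singleton]
      by_cases hz : z = 0
      · exact Or.inr (Or.inl hz)
      · by_cases hz2 : (N * z + Δ ^ 2) * M = k * z
        · refine Or.inr (Or.inr ?_)
          have h6 : k - N * M ≠ 0 := by
            intro h
            have h7 : M * Δ ^ 2 = 0 := by linear_combination hz2 + z * h
            exact mul_ne_zero hM (pow_ne_zero 2 hΔ) h7
          rw [eq_div_iff h6]
          linear_combination -hz2
        · exact Or.inl ⟨mem_univ _, hz, hz2⟩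
    have h6 := (card_le_card h5).trans (card_union_le _ _)
    have h7 : ({0, M * Δ ^ 2 / (k - N * M)} : Finset F).card ≤ 2 := card_le_two
    rw [card_univ] at h6
    have h8 : (Fintype.card F : ℝ) ≤
        (((univ : Finset F).filter fun z : F => z ≠ 0 ∧ (N * z + Δ ^ 2) * M ≠ k * z).card : ℝ) + 2 := by
      exact_mod_cast h6.trans (Nat.add_le_add_left h7 _)
    rw [← hq] at h8
    have h9 : q - 2 ≤ (((univ : Finset F).filter fun z : F => z ≠ 0 ∧ (N * z + Δ ^ 2) * M ≠ k * z).card : ℝ) := by linarith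
    refine h9.trans (le_of_eq ?_)
    congr!
  refine (mul_le_mul_of_nonneg_right h4 (by linarith)).trans (h3.trans ?_)
  have hdet : Δ = o.m01 * C * E * o.m12 - A * D * o.m21 * o.m10 := hΔ'
  refine card_inj (fun t : F × F => (-((o.m10 * A * t.1 + E * o.m12 * t.2) / Δ), -((o.m01 * C * t.1 + D * o.m21 * t.2) / Δ)))
    ?_ _ _ ?_
  · rintro ⟨z, w⟩ ⟨z', w'⟩ h
    simp only [Prod.mk.injEq, neg_inj] at h
    rw [div_left_inj' hΔ, div_left_inj' hΔ] at h
    obtain ⟨g1, g2⟩ := h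
    refine Prod.ext (mul_left_cancel₀ hΔ ?_) (mul_left_cancel₀ hΔ ?_)
    · simp only
      rw [hdet]
      linear_combination (E * o.m12) * g2 - (D * o.m21) * g1
    · simp only
      rw [hdet]
      linear_combination (o.m01 * C) * g1 - (o.m10 * A) * g2
  · rintro ⟨z, w⟩ ⟨-, h⟩ hs
    apply h
    simp only at hs ⊢
    have hZ : Zz o (-((o.m10 * A * z + E * o.m12 * w) / Δ)) E (-((o.m01 * C * z + D * o.m21 * w) / Δ)) D = z := by
      unfold Zz
      field_simp
      rw [hdet]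
      ring
    have hW : Ww o A (-((o.m10 * A * z + E * o.m12 * w) / Δ)) C (-((o.m01 * C * z + D * o.m21 * w) / Δ)) = w := by
      unfold Ww
      field_simp
      rw [hdet]
      ring
    unfold Dis Bb at hs
    rw [hZ, hW, ← hΔ', ← hM', ← hN', ← hk'] at hs
    convert hs using 1
    ring

theorem num3 (h2 : (2 : F) ≠ 0) (hq3 : 3 ≤ Fintype.card F) (o : Six F) (hY : Yy o ≠ 0) :
    ((Fintype.card F : ℝ) - 1) ^ 3 * ((Fintype.card F : ℝ) - 2) ^ 2 * ((Fintype.card F : ℝ) - 3) / 2 ≤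
    (PNum fun w s : Fin 3 → F => Dl4 o (w 0) (w 2) (s 0) (s 2) ≠ 0 ∧
      ¬ IsSquare (Dis o (w 0) (w 1) (w 2) (s 0) (s 1) (s 2)) : ℝ) := by
  set q := (Fintype.card F : ℝ) with hq
  have hq1 : 3 ≤ q := by
    rw [hq]
    exact_mod_cast hq3
  -- the pairs `(C, D)`
  have hCD := pencil (F := F) (n := 3) ![1, 0, o.m12] ![0, 1, -o.m10] (by
    intro i
    fin_cases i
    · simp
    · simp
    · by_contra h
      simp at h
      obtain ⟨h1, h2⟩ := h
      apply hY
      unfold Yy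
      rw [h1, h2]
      ring)
  -- the pairs `(A, E)`
  set fa : F × F → Fin 4 → F := fun v => ![-(v.2 * o.m21 * o.m10), v.2 * o.m20, -o.m21, -(o.m12 * o.m21) * (v.2 * o.m20)] with hfa
  set fb : F × F → Fin 4 → F := fun v => ![o.m01 * v.1 * o.m12, -(v.1 * o.m02), o.m01,
    (o.m12 * o.m21) * (v.1 * o.m02) + v.2 * Yy o] with hfb
  have hCDne : ∀ v : F × F, (v ≠ 0 ∧ ∀ i : Fin 3, (![1, 0, o.m12] : Fin 3 → F) i * v.1 + (![0, 1, -o.m10] : Fin 3 → F) i * v.2 ≠ 0) →
      v.1 ≠ 0 ∧ v.2 ≠ 0 ∧ Ka o v.1 v.2 ≠ 0 := by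
    rintro v ⟨-, h⟩
    have e0 := h 0
    have e1 := h 1
    have e2 := h 2
    simp at e0 e1 e2
    refine ⟨e0, e1, fun h3 => e2 ?_⟩
    unfold Ka at h3
    linear_combination h3
  have hAE : ∀ v : F × F, (v ≠ 0 ∧ ∀ i : Fin 3, (![1, 0, o.m12] : Fin 3 → F) i * v.1 + (![0, 1, -o.m10] : Fin 3 → F) i * v.2 ≠ 0) →
      (q - 1) * (q + 1 - (4 : ℕ)) ≤ (cnt fun u : F × F => u ≠ 0 ∧ ∀ i, fa v i * u.1 + fb v i * u.2 ≠ 0 : ℝ) := by
    intro v hv
    obtain ⟨hC, hD, hκ⟩ := hCDne v hv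
    refine pencil (F := F) (n := 4) _ _ fun i => ?_
    by_contra h
    rw [not_or, not_not, not_not] at h
    obtain ⟨g1, g2⟩ := h
    apply hY
    have hY' : Yy o = o.m12 * o.m01 * o.m20 - o.m21 * o.m10 * o.m02 := rfl
    fin_cases i
    · have k1 : v.2 * (o.m21 * o.m10) = 0 := by
        have : -(v.2 * o.m21 * o.m10) = 0 := g1
        linear_combination -this
      have k2 : v.1 * (o.m01 * o.m12) = 0 := by
        have : o.m01 * v.1 * o.m12 = 0 := g2
        linear_combination this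
      have l1 := (mul_eq_zero.1 k1).resolve_left hD
      have l2 := (mul_eq_zero.1 k2).resolve_left hC
      rw [hY']
      linear_combination o.m20 * l2 - o.m02 * l1
    · have k1 : v.2 * o.m20 = 0 := g1
      have k2 : v.1 * o.m02 = 0 := by
        have : -(v.1 * o.m02) = 0 := g2
        linear_combination -this
      have l1 := (mul_eq_zero.1 k1).resolve_left hD
      have l2 := (mul_eq_zero.1 k2).resolve_left hC
      rw [hY', l1, l2]
      ring
    · have k1 : -o.m21 = 0 := g1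
      have k2 : o.m01 = 0 := g2
      have l1 : o.m21 = 0 := by linear_combination -k1
      rw [hY', k2, l1]
      ring
    · have k1 : v.2 * (o.m12 * o.m21 * o.m20) = 0 := by
        have : -(o.m12 * o.m21) * (v.2 * o.m20) = 0 := g1
        linear_combination -this
      have k2 : (o.m12 * o.m21) * (v.1 * o.m02) + v.2 * Yy o = 0 := g2
      have l1 := (mul_eq_zero.1 k1).resolve_left hD
      have k3 : v.2 * (Yy o * o.m20) = 0 := by linear_combination o.m20 * k2 - v.1 * o.m02 * l1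
      have l3 : o.m20 = 0 := by
        rcases mul_eq_zero.1 ((mul_eq_zero.1 k3).resolve_left hD) with h | h
        · exact absurd h hY
        · exact h
      rw [hY', l3] at k2
      have k4 : Ka o v.1 v.2 * (o.m21 * o.m02) = 0 := by
        unfold Ka
        linear_combination k2
      have l4 := (mul_eq_zero.1 k4).resolve_left hκ
      rw [hY', l3]
      linear_combination -(o.m10 * l4)
  have h3 : ∀ v : F × F, (v ≠ 0 ∧ ∀ i : Fin 3, (![1, 0, o.m12] : Fin 3 → F) i * v.1 + (![0, 1, -o.m10] : Fin 3 → F) i * v.2 ≠ 0) →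
      (q - 1) * (q + 1 - (4 : ℕ)) * ((q - 2) * ((q - 1) / 2)) ≤
        (cnt fun t : (F × F) × (F × F) => (t.1 ≠ 0 ∧ ∀ i, fa v i * t.1.1 + fb v i * t.1.2 ≠ 0) ∧
          ¬ IsSquare (Dis o t.1.1 t.2.1 t.1.2 v.1 t.2.2 v.2) : ℝ) := by
    intro v hv
    obtain ⟨hC, hD, hκ⟩ := hCDne v hv
    refine (mul_le_mul_of_nonneg_right (hAE v hv) (mul_nonneg (by linarith) (by linarith))).trans ?_
    refine card_fib (fun u : F × F => u ≠ 0 ∧ ∀ i, fa v i * u.1 + fb v i * u.2 ≠ 0)
      (fun u (g : F × F) => ¬ IsSquare (Dis o u.1 g.1 u.2 v.1 g.2 v.2)) _ ?_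
    rintro u ⟨-, hu⟩
    have e0 := hu 0
    have e1 := hu 1
    have e2 := hu 2
    have e3 := hu 3
    simp [hfa, hfb] at e0 e1 e2 e3
    refine inner h2 hq3 o ?_ ?_ hY hκ ?_ ?_
    · intro h
      apply e0
      unfold Dl4 at h
      linear_combination h
    · intro h
      apply e1
      unfold Xx at h
      linear_combination h
    · intro h
      apply e2
      unfold Kb at h
      linear_combination h
    · intro h
      apply e3
      unfold Mm Xx at h
      linear_combination h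
  have h4 := card_fib (fun v : F × F => v ≠ 0 ∧ ∀ i : Fin 3, (![1, 0, o.m12] : Fin 3 → F) i * v.1 + (![0, 1, -o.m10] : Fin 3 → F) i * v.2 ≠ 0)
    (fun v (t : (F × F) × (F × F)) => (t.1 ≠ 0 ∧ ∀ i, fa v i * t.1.1 + fb v i * t.1.2 ≠ 0) ∧
          ¬ IsSquare (Dis o t.1.1 t.2.1 t.1.2 v.1 t.2.2 v.2)) _ h3
  have h5 := PNum_ge (fun w s : Fin 3 → F => Dl4 o (w 0) (w 2) (s 0) (s 2) ≠ 0 ∧
      ¬ IsSquare (Dis o (w 0) (w 1) (w 2) (s 0) (s 1) (s 2)))
    (fun t : (F × F) × ((F × F) × (F × F)) => (![t.2.1.1, t.2.2.1, t.2.1.2], ![t.1.1, t.2.2.2, t.1.2])) (by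
    rintro ⟨⟨a, b⟩, ⟨c, d⟩, e, f⟩ ⟨⟨a', b'⟩, ⟨c', d'⟩, e', f'⟩ h
    rw [Prod.mk.injEq] at h
    have e0 := congrFun h.1 0
    have e1 := congrFun h.1 1
    have e2 := congrFun h.1 2
    have e3 := congrFun h.2 0
    have e4 := congrFun h.2 1
    have e5 := congrFun h.2 2
    simp at e0 e1 e2 e3 e4 e5
    subst e0 e1 e2 e3 e4 e5
    rfl)
    (fun vt => (vt.1 ≠ 0 ∧ ∀ i : Fin 3, (![1, 0, o.m12] : Fin 3 → F) i * vt.1.1 + (![0, 1, -o.m10] : Fin 3 → F) i * vt.1.2 ≠ 0) ∧
      (vt.2.1 ≠ 0 ∧ ∀ i, fa vt.1 i * vt.2.1.1 + fb vt.1 i * vt.2.1.2 ≠ 0) ∧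
          ¬ IsSquare (Dis o vt.2.1.1 vt.2.2.1 vt.2.1.2 vt.1.1 vt.2.2.2 vt.1.2)) (by
    rintro ⟨⟨C, D⟩, ⟨A, E⟩, G, H⟩ ⟨-, ⟨-, hu⟩, h7⟩
    have e0 := hu 0
    simp [hfa, hfb] at e0
    refine ⟨fun h => e0 ?_, h7⟩
    simp at h
    unfold Dl4 at h
    linear_combination h)
  refine le_trans ?_ (h4.trans h5)
  refine le_trans (le_of_eq ?_) (mul_le_mul_of_nonneg_right hCD
    (mul_nonneg (mul_nonneg (by linarith) (by push_cast; linarith)) (mul_nonneg (by linarith) (by linarith))))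
  push_cast
  ring

end

end Pool.Agent.W5h26.UF
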