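import Mathlib

/-!
# Planes of characters with vanishing cup products: two, three and four primes
-/

set_option autoImplicit false

open Finset

namespace Pool.Agent.W5h26.UF

/-- any two solutions of the equations `x_l ∑ L_lj y_j = y_l ∑ L_lj x_j` are linearly dependent -/
def NI (F : Type) [Field F] (T : Finset ℕ) (L : ℕ → ℕ → F) : Prop :=
  ∀ x y : ℕ → F, (∀ l ∈ T, x l * ∑ j ∈ T, L l j * y j = y l * ∑ j ∈ T, L l j * x j) →
    ∃ c d : F, (c ≠ 0 ∨ d ≠ 0) ∧ ∀ l ∈ T, c * x l = d * y l

section
variable {F : Type} [Field F]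

theorem dep {T : Finset ℕ} {x y : ℕ → F} (h : ∀ i ∈ T, ∀ j ∈ T, x i * y j = x j * y i) :
    ∃ c d : F, (c ≠ 0 ∨ d ≠ 0) ∧ ∀ l ∈ T, c * x l = d * y l := by
  by_cases hy : ∀ l ∈ T, y l = 0
  · exact ⟨0, 1, Or.inr one_ne_zero, fun l hl => by rw [hy l hl]; ring⟩
  · push Not at hy
    obtain ⟨k, hk, hk0⟩ := hy
    exact ⟨y k, x k, Or.inl hk0, fun l hl => by linear_combination h l hl k hk⟩

theorem NI.mono {T T' : Finset ℕ} (h : T' ⊆ T) {L : ℕ → ℕ → F} (hT : NI F T L) : NI F T' L := by
  classical
  intro x y hxy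
  have key : ∀ (l : ℕ) (z : ℕ → F), ∑ j ∈ T, L l j * (if j ∈ T' then z j else 0) = ∑ j ∈ T', L l j * z j := by
    intro l z
    have : ∀ j, L l j * (if j ∈ T' then z j else 0) = if j ∈ T' then L l j * z j else 0 := by
      intro j
      split_ifs <;> simp
    rw [sum_congr rfl fun j _ => this j, ← sum_filter]
    congr 1
    ext j
    rw [mem_filter]
    exact ⟨fun h => h.2, fun hj => ⟨h hj, hj⟩⟩
  obtain ⟨c, d, hcd, h1⟩ := hT (fun j => if j ∈ T' then x j else 0) (fun j => if j ∈ T' then y j else 0) (by
    intro l _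
    rw [key, key]
    by_cases hl : l ∈ T'
    · rw [if_pos hl, if_pos hl]
      exact hxy l hl
    · rw [if_neg hl, if_neg hl, zero_mul, zero_mul])
  refine ⟨c, d, hcd, fun l hl => ?_⟩
  have := h1 l (h hl)
  rwa [if_pos hl, if_pos hl] at this

theorem ni2 {L : ℕ → ℕ → F} {a b : ℕ} (hab : a ≠ b) (h : L a b ≠ 0 ∨ L b a ≠ 0) : NI F {a, b} L := by
  intro x y hxy
  have ha : a ∉ ({b} : Finset ℕ) := by simpa using hab
  simp only [sum_insert ha, sum_singleton] at hxy
  have h0 := hxy a (by simp)
  have h1 := hxy b (by simp)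
  have hp : x a * y b = x b * y a := by
    rcases h with h | h
    · apply mul_left_cancel₀ h
      linear_combination h0
    · apply mul_left_cancel₀ h
      linear_combination -h1
  refine dep fun i hi j hj => ?_
  simp only [mem_insert, mem_singleton] at hi hj
  rcases hi with rfl | rfl <;> rcases hj with rfl | rfl
  · rfl
  · exact hp
  · exact hp.symm
  · rfl

theorem ni3 {L : ℕ → ℕ → F} {a b c : ℕ} (hab : a ≠ b) (hac : a ≠ c) (hbc : b ≠ c)
    (h : L a b * L b c * L c a ≠ L b a * L c b * L a c) : NI F {a, b, c} L := by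
  intro x y hxy
  have ha : a ∉ ({b, c} : Finset ℕ) := by simp [hab, hac]
  have hb : b ∉ ({c} : Finset ℕ) := by simp [hbc]
  simp only [sum_insert ha, sum_insert hb, sum_singleton] at hxy
  have h0 := hxy a (by simp)
  have h1 := hxy b (by simp)
  have h2 := hxy c (by simp)
  have hD : L a b * L b c * L c a - L b a * L c b * L a c ≠ 0 := sub_ne_zero.2 h
  have e1 : x a * y b = x b * y a := by
    apply mul_left_cancel₀ hD
    linear_combination L b c * L c a * h0 + L a c * L c b * h1 + L a c * L b c * h2
  have e2 : x b * y c = x c * y b := by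
    apply mul_left_cancel₀ hD
    linear_combination L b a * L c a * h0 + L a b * L c a * h1 + L b a * L a c * h2
  have e3 : x a * y c = x c * y a := by
    apply mul_left_cancel₀ hD
    linear_combination -(L b a * L c b * h0) - L a b * L c b * h1 - L a b * L b c * h2
  refine dep fun i hi j hj => ?_
  simp only [mem_insert, mem_singleton] at hi hj
  rcases hi with rfl | rfl | rfl <;> rcases hj with rfl | rfl | rfl
  · rfl
  · exact e1
  · exact e3
  · exact e1.symm
  · rfl
  · exact e2
  · exact e3.symm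
  · exact e2.symm
  · rfl

/-! ### Four primes -/

/-- the entries of a `4 × 4` matrix outside of the diagonal; the last row and column are separate -/
structure Six (F : Type) where
  (m01 m10 m02 m20 m12 m21 : F)

variable (o : Six F) (A G E C H D : F)

/-- here `A = L03`, `G = L13`, `E = L23`, `C = L30`, `H = L31`, `D = L32` -/
def Dl4 : F := o.m01 * C * E * o.m12 - A * D * o.m21 * o.m10
def Xx : F := -(C * E * o.m02) + A * D * o.m20
def Yy : F := o.m12 * o.m01 * o.m20 - o.m21 * o.m10 * o.m02
def Zz : F := -(E * o.m12 * H) + D * o.m21 * G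
def Ww : F := -(o.m01 * C * G) + o.m10 * A * H
def Ka : F := C * o.m12 - D * o.m10
def Kb : F := o.m01 * E - A * o.m21
def Mm : F := -(o.m12 * o.m21) * Xx o A E C D + E * D * Yy o
def Nn : F := C * A * Yy o - o.m01 * o.m10 * Xx o A E C D
def Bb : F := Mm o A E C D * Ww o A G C H + Nn o A E C D * Zz o G E H D + Dl4 o A E C D ^ 2
/-- the discriminant -/
def Dis : F := Bb o A G E C H D ^ 2 - 4 * (Ka o C D * Kb o A E * Xx o A E C D * Yy o) * Zz o G E H D * Ww o A G C H

end

theorem ni4 {F : Type} [Field F] {L : ℕ → ℕ → F} {a b c d : ℕ} (hab : a ≠ b) (hac : a ≠ c) (had : a ≠ d) (hbc : b ≠ c)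
    (hbd : b ≠ d) (hcd : c ≠ d) (o : Six F) (ho : o = ⟨L a b, L b a, L a c, L c a, L b c, L c b⟩)
    (h1 : Dl4 o (L a d) (L c d) (L d a) (L d c) ≠ 0)
    (h2 : ¬ IsSquare (Dis o (L a d) (L b d) (L c d) (L d a) (L d b) (L d c))) : NI F {a, b, c, d} L := by
  intro x y hxy
  have ha : a ∉ ({b, c, d} : Finset ℕ) := by simp [hab, hac, had]
  have hb : b ∉ ({c, d} : Finset ℕ) := by simp [hbc, hbd]
  have hc : c ∉ ({d} : Finset ℕ) := by simp [hcd]
  simp only [sum_insert ha, sum_insert hb, sum_insert hc, sum_singleton] at hxy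
  have e0 := hxy a (by simp)
  have e1 := hxy b (by simp)
  have e2 := hxy c (by simp)
  have e3 := hxy d (by simp)
  set Δ := Dl4 o (L a d) (L c d) (L d a) (L d c) with hΔ
  set X := Xx o (L a d) (L c d) (L d a) (L d c) with hX
  set Y := Yy o with hY
  set Z := Zz o (L b d) (L c d) (L d b) (L d c) with hZ
  set W := Ww o (L a d) (L b d) (L d a) (L d b) with hW
  set p01 := x a * y b - x b * y a with h01
  set p02 := x a * y c - x c * y a with h02
  set p03 := x a * y d - x d * y a with h03
  set p12 := x b * y c - x c * y b with h12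
  set p13 := x b * y d - x d * y b with h13
  set p23 := x c * y d - x d * y c with h23
  have f0 : L a b * p01 + L a c * p02 + L a d * p03 = 0 := by
    rw [h01, h02, h03]
    linear_combination e0
  have f1 : -(L b a * p01) + L b c * p12 + L b d * p13 = 0 := by
    rw [h01, h12, h13]
    linear_combination e1
  have f2 : -(L c a * p02) - L c b * p12 + L c d * p23 = 0 := by
    rw [h02, h12, h23]
    linear_combination e2
  have f3 : -(L d a * p03) - L d b * p13 - L d c * p23 = 0 := by
    rw [h03, h13, h23]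
    linear_combination e3
  have g01 : Δ * p01 = L b c * X * p02 - L a d * Z * p13 := by
    rw [hΔ, hX, hZ, ho]
    unfold Dl4 Xx Zz
    linear_combination L d a * L c d * L b c * f0 + L a d * L c d * L b c * f3 + L a d * L d c * L b c * f2 +
      L a d * L d c * L c b * f1
  have g03 : Δ * p03 = L a b * Z * p13 - L d c * Y * p02 := by
    rw [hΔ, hY, hZ, ho]
    unfold Dl4 Yy Zz
    linear_combination -(L d c * L c b * L b a) * f0 - L a b * L c d * L b c * f3 - L a b * L d c * L b c * f2 -
      L a b * L d c * L c b * f1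
  have g23 : Δ * p23 = L d a * Y * p02 + L c b * W * p13 := by
    rw [hΔ, hY, hW, ho]
    unfold Dl4 Yy Ww
    linear_combination (L d a * L c b * L b a) * f0 + L c b * L b a * L a d * f3 + L a b * L d a * L b c * f2 +
      L a b * L d a * L c b * f1
  have g12 : Δ * p12 = L c d * W * p13 + L b a * X * p02 := by
    rw [hΔ, hX, hW, ho]
    unfold Dl4 Xx Ww
    linear_combination (L d a * L b a * L c d) * f0 + L b a * L c d * L a d * f3 + L b a * L a d * L d c * f2 +
      L a b * L d a * L c d * f1
  have pl : p01 * p23 - p02 * p13 + p03 * p12 = 0 := by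
    rw [h01, h23, h02, h13, h03, h12]
    ring
  set κ := Ka o (L d a) (L d c) with hκ
  set κ' := Kb o (L a d) (L c d) with hκ'
  set B := Bb o (L a d) (L b d) (L c d) (L d a) (L d b) (L d c) with hB
  have quad : κ * X * Y * p02 ^ 2 - B * p02 * p13 + κ' * Z * W * p13 ^ 2 = 0 := by
    have q1 : Δ ^ 2 * (p01 * p23 - p02 * p13 + p03 * p12) = (Δ * p01) * (Δ * p23) - Δ ^ 2 * p02 * p13 + (Δ * p03) * (Δ * p12) := by
      ring
    rw [pl, mul_zero, g01, g23, g03, g12] at q1
    have hB' : B = -(L b c * L c b) * X * W + L d a * L a d * Y * Z - L a b * L b a * X * Z + L c d * L d c * Y * W + Δ ^ 2 := by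
      rw [hB, hX, hY, hZ, hW, hΔ]
      unfold Bb Mm Nn
      rw [ho]
      ring
    have hκ1 : κ = L d a * L b c - L d c * L b a := by
      rw [hκ, ho]
      rfl
    have hκ2 : κ' = L a b * L c d - L a d * L c b := by
      rw [hκ', ho]
      rfl
    rw [hB', hκ1, hκ2]
    linear_combination -q1
  have hD : Dis o (L a d) (L b d) (L c d) (L d a) (L d b) (L d c) = B ^ 2 - 4 * (κ * κ' * X * Y) * Z * W := rfl
  rw [hD] at h2
  have s0 : p13 = 0 := by
    by_contra h
    apply h2
    refine ⟨(2 * (κ * X * Y) * p02 - B * p13) / p13, ?_⟩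
    field_simp
    linear_combination (-4 * (κ * X * Y)) * quad
  have s1 : p02 = 0 := by
    by_contra h
    apply h2
    rw [s0] at quad
    have : κ * X * Y = 0 := by
      have h3 : κ * X * Y * p02 ^ 2 = 0 := by linear_combination quad
      exact (mul_eq_zero.1 h3).resolve_right (pow_ne_zero 2 h)
    refine ⟨B, ?_⟩
    linear_combination (-4 * κ' * Z * W) * this
  have z : ∀ {t : F}, Δ * t = 0 → t = 0 := fun ht => (mul_eq_zero.1 ht).resolve_left h1
  have t01 : p01 = 0 := z (by rw [g01, s0, s1]; ring)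
  have t03 : p03 = 0 := z (by rw [g03, s0, s1]; ring)
  have t23 : p23 = 0 := z (by rw [g23, s0, s1]; ring)
  have t12 : p12 = 0 := z (by rw [g12, s0, s1]; ring)
  refine dep fun i hi j hj => ?_
  simp only [mem_insert, mem_singleton] at hi hj
  rcases hi with rfl | rfl | rfl | rfl <;> rcases hj with rfl | rfl | rfl | rfl
  · rfl
  · linear_combination t01
  · linear_combination s1
  · linear_combination t03
  · linear_combination -t01
  · rfl
  · linear_combination t12
  · linear_combination s0
  · linear_combination -s1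
  · linear_combination -t12
  · rfl
  · linear_combination t23
  · linear_combination -t03
  · linear_combination -s0
  · linear_combination -t23
  · rfl

end Pool.Agent.W5h26.UF
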